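import Pool.Agent.V11230.CompDi3
import Pool.Agent.NPC.Classes
import Pool.Agent.NPC.Dec

/-!
# Recognising comparability digraphs is NP-hard

A linear order is a comparability ordering iff for each path `u → v → w` with `u ≠ w` and no arc
from `u` to `w` the vertex `v` is not between `u` and `w`.  Hence a vertex with in-neighbours and
out-neighbours without arcs between them is before all its neighbours or after all of them.  The
variables are such vertices, and one more such vertex represents a constant.  For a clause there is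
a cycle `a, b, c, d` in which `a` and `c` are sources and `b` and `d` are sinks; four further vertices
force the relative positions of the pairs `ab`, `cb`, `cd`, `ad` to be those given by the three
literals and the constant, and the clause is violated iff these positions form a directed cycle.
-/

set_option autoImplicit false

namespace Pool.Agent.NPC.V11230.CD

open Pool.Agent.NPC

/-! ### Polynomial time -/

section

variable {α : Type} [TEnc α]

theorem poly_lin {a : α → ℕ} (ha : Poly a) (m c : ℕ) : Poly (fun t => m * a t + c) :=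
  Poly.add (Poly.mul (Poly.const m) ha) (Poly.const c)

theorem poly_mul' {a : α → ℕ} (ha : Poly a) (m : ℕ) : Poly (fun t => m * a t) :=
  Poly.mul (Poly.const m) ha

theorem poly_hub {l : α → Lit ℕ} (hl : Poly l) : Poly (fun t => hub (l t)) := by
  unfold hub
  have hb : Poly (fun t => decide ((l t).1 = true)) := (Poly.fst hl).congr fun a => by simp
  exact Poly.ite hb (poly_lin (Poly.snd hl) 3 1) (poly_lin (Poly.snd hl) 3 2)

theorem poly_neg {l : α → Lit ℕ} (hl : Poly l) : Poly (fun t => neg (l t)) :=
  Poly.pair (Poly.not (Poly.fst hl)) (Poly.snd hl)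

theorem poly_matOf {N : α → ℕ} {A : α → List (ℕ × ℕ)} (hN : UPoly N) (hA : Poly A) :
    Poly (fun a => matOf (N a) (A a)) := by
  unfold matOf
  have hr : Poly (fun a => List.range (N a)) := UPoly.range hN
  refine Poly.map (F := fun a i => (List.range (N a)).map (fun j =>
    (A a).any (fun e => decide (e.1 = i) && decide (e.2 = j)))) hr ?_
  refine Poly.map (F := fun (p : α × ℕ) j =>
    (A p.1).any (fun e => decide (e.1 = p.2) && decide (e.2 = j))) (hr.comp (Poly.fst Poly.id)) ?_
  refine Poly.any (l := fun p : (α × ℕ) × ℕ => A p.1.1)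
    (p := fun p e => decide (e.1 = p.1.2) && decide (e.2 = p.2))
    (hA.comp (Poly.fst (Poly.fst Poly.id))) ?_
  exact Poly.and
    (Poly.decide_eq (Poly.fst (Poly.snd Poly.id)) (Poly.snd (Poly.fst (Poly.fst Poly.id))))
    (Poly.decide_eq (Poly.snd (Poly.snd Poly.id)) (Poly.snd (Poly.fst Poly.id)))

end

theorem poly_cArcs : Poly (fun t : List Cl × (Cl × ℕ) => cArcs t.1.length t.2) := by
  have hL : Poly (fun t : List Cl × (Cl × ℕ) => t.1.length) := Poly.length (Poly.fst Poly.id)
  have hk : Poly (fun t : List Cl × (Cl × ℕ) => t.2.2) := Poly.snd (Poly.snd Poly.id)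
  have hc : Poly (fun t : List Cl × (Cl × ℕ) => t.2.1) := Poly.fst (Poly.snd Poly.id)
  have h1 := poly_hub (Poly.fst hc)
  have h2 := poly_hub (poly_neg (Poly.fst (Poly.snd hc)))
  have h3 := poly_hub (Poly.snd (Poly.snd hc))
  have h4 : Poly (fun t : List Cl × (Cl × ℕ) => 9 * t.1.length + 1) := poly_lin hL 9 1
  have hb : Poly (fun t : List Cl × (Cl × ℕ) => bs t.1.length t.2.2) := by
    unfold bs
    exact Poly.add (poly_lin hL 9 3) (poly_mul' hk 8)
  have hj : ∀ j : ℕ, Poly (fun t : List Cl × (Cl × ℕ) => bs t.1.length t.2.2 + j) := fun j =>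
    Poly.add hb (Poly.const j)
  unfold cArcs
  exact Poly.cons (Poly.pair h1 (hj 4)) (Poly.cons (Poly.pair (hj 4) hb)
    (Poly.cons (Poly.pair (hj 4) (hj 3)) (Poly.cons (Poly.pair h2 (hj 5))
    (Poly.cons (Poly.pair (hj 5) (hj 2)) (Poly.cons (Poly.pair (hj 5) (hj 3))
    (Poly.cons (Poly.pair h3 (hj 6)) (Poly.cons (Poly.pair (hj 6) (hj 2))
    (Poly.cons (Poly.pair (hj 6) (hj 1)) (Poly.cons (Poly.pair h4 (hj 7))
    (Poly.cons (Poly.pair (hj 7) hb) (Poly.cons (Poly.pair (hj 7) (hj 1))
    (Poly.cons (Poly.pair hb (hj 1)) (Poly.cons (Poly.pair hb (hj 3))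
    (Poly.cons (Poly.pair (hj 2) (hj 1)) (Poly.cons (Poly.pair (hj 2) (hj 3))
    (Poly.const []))))))))))))))))

theorem poly_dig : Poly dig := by
  have hid : Poly (fun φ : List Cl => φ) := Poly.id
  have hu : UPoly (fun φ : List Cl => φ.length) := UPoly.length hid
  unfold dig
  refine poly_matOf (UPoly.add (UPoly.mul (UPoly.const 17) hu) (UPoly.const 3)) ?_
  unfold arcs
  refine Poly.append ?_ ?_
  · refine Poly.flatMap (F := fun (_ : List Cl) (x : ℕ) => [(3 * x, 3 * x + 1),
      (3 * x + 1, 3 * x + 2)]) (UPoly.range (UPoly.add (UPoly.mul (UPoly.const 3) hu)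
      (UPoly.const 1))) ?_
    have hx : Poly (fun t : List Cl × ℕ => t.2) := Poly.snd Poly.id
    exact Poly.cons (Poly.pair (poly_mul' hx 3) (poly_lin hx 3 1))
      (Poly.cons (Poly.pair (poly_lin hx 3 1) (poly_lin hx 3 2)) (Poly.const []))
  · exact Poly.flatMap (F := fun (φ : List Cl) (p : Cl × ℕ) => cArcs φ.length p)
      (Poly.zipIdx hid) poly_cArcs

theorem poly_eq_true : Poly (fun y : List Bool => decide (y = [true])) :=
  Poly.decide_eq Poly.id (Poly.const [true])

/-! ### Hardness -/

theorem hardPr_comparability : HardPr IsDigraph IsComparability := by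
  refine hardPr_SAT3b.trans (f := dig) poly_dig ?_ ?_
  · rintro φ ⟨_, hb, _⟩
    exact isDigraph_dig hb
  · rintro φ ⟨_, hb, _⟩
    exact ⟨complete hb, sound hb⟩

end Pool.Agent.NPC.V11230.CD

namespace Pool.Agent.Results.MP_8b4e11_lc.RecognitionNPHard

open Pool.Agent.NPC Pool.Agent.NPC.V11230.CD

/-- **Recognising comparability digraphs is `NP`-hard**, so there is no polynomial-time algorithm
for it unless `P = NP`. -/
theorem result :
    (∀ L : Set (List Bool), InNP L → ∃ f : List Bool → List (List Bool),
      PolyTime (fun x => bits (f x)) ∧ (∀ x, IsDigraph (f x)) ∧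
        ∀ x, x ∈ L ↔ IsComparability (f x)) ∧
    (∀ A : List Bool → List Bool, PolyTime A →
      (∀ M : List (List Bool), IsDigraph M → (A (bits M) = [true] ↔ IsComparability M)) →
      ∀ L : Set (List Bool), InNP L → InP L) := by
  refine ⟨fun L hL => ?_, fun A hA h L hL => ?_⟩
  · obtain ⟨f, hf, hpr, hfL⟩ := hardPr_comparability L hL
    exact ⟨f, PC.toPolyTime hf, hpr, hfL⟩
  · obtain ⟨f, hf, hpr, hfL⟩ := hardPr_comparability L hL
    have h1 : PolyTime (fun x => bits (f x)) := PC.toPolyTime hf
    have h2 : PolyTime (fun x => A (bits (f x))) := H642R2.TMSim.polyTime_comp hA h1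
    refine ⟨fun x => [decide (A (bits (f x)) = [true])], polyTime_test h2 poly_eq_true, fun x => ?_⟩
    rw [hfL x, ← h (f x) (hpr x)]
    simp

end Pool.Agent.Results.MP_8b4e11_lc.RecognitionNPHard
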